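import Mathlib

set_option autoImplicit false

/-! # The monoid `⟨a, b, c | (a b^i c)^2 = 1, i ≥ 0⟩`: action on irreducible words -/

namespace Pool.Agent.N87.CFU

/-- the letters -/
inductive Ltr : Type
  | a
  | b
  | c
  deriving DecidableEq

open Ltr

/-- the word `a b^i c` -/
def X (i : ℕ) : List Ltr := a :: (List.replicate i b ++ [c])

/-- the word `b^i c a b^i` -/
def Mi (i : ℕ) : List Ltr := List.replicate i b ++ (c :: a :: List.replicate i b)

/-- the word `(a b^i c)^2` -/
def Cw (i : ℕ) : List Ltr := X i ++ X i

theorem Cw_eq (i : ℕ) : Cw i = a :: (Mi i ++ [c]) := by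
  simp [Cw, X, Mi]

/-- irreducible words -/
def Irr (w : List Ltr) : Prop := ∀ (x : List Ltr) (i : ℕ) (y : List Ltr), w ≠ x ++ (Cw i ++ y)

theorem Irr.nil : Irr [] := by
  intro x i y h
  have := congrArg List.length h
  simp [Cw, X] at this

theorem Irr.right {u w : List Ltr} (h : Irr (u ++ w)) : Irr w := by
  intro x i y hw
  exact h (u ++ x) i y (by rw [hw, List.append_assoc])

theorem Irr.left {u w : List Ltr} (h : Irr (u ++ w)) : Irr u := by
  intro x i y hw
  exact h x i (y ++ w) (by rw [hw]; simp)

theorem Irr.tail {l : Ltr} {w : List Ltr} (h : Irr (l :: w)) : Irr w :=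
  Irr.right (u := [l]) h

theorem rep_inj : ∀ (i j : ℕ) (u v : List Ltr),
    List.replicate i b ++ c :: u = List.replicate j b ++ c :: v → i = j ∧ u = v := by
  intro i
  induction i with
  | zero =>
    intro j u v h
    cases j with
    | zero => simpa using h
    | succ j => simp [List.replicate_succ] at h
  | succ i ih =>
    intro j u v h
    cases j with
    | zero => simp [List.replicate_succ] at h
    | succ j =>
      simp only [List.replicate_succ, List.cons_append, List.cons.injEq, true_and] at h
      obtain ⟨h1, h2⟩ := ih j u v h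
      exact ⟨by rw [h1], h2⟩

theorem X_inj {i j : ℕ} {u v : List Ltr} (h : X i ++ u = X j ++ v) : i = j ∧ u = v := by
  simp only [X, List.cons_append, List.append_assoc, List.nil_append, List.cons.injEq,
    true_and] at h
  exact rep_inj i j u v h

theorem Cw_inj {i j : ℕ} {u v : List Ltr} (h : Cw i ++ u = Cw j ++ v) : i = j ∧ u = v := by
  simp only [Cw, List.append_assoc] at h
  obtain ⟨rfl, h2⟩ := X_inj h
  exact ⟨rfl, (X_inj h2).2⟩

open Classical in
/-- put a letter in front of an irreducible word and reduce -/
noncomputable def push (l : Ltr) (w : List Ltr) : List Ltr :=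
  if h : ∃ (y : List Ltr) (i : ℕ), l :: w = Cw i ++ y then h.choose else l :: w

theorem push_red {l : Ltr} {w : List Ltr} {i : ℕ} {y : List Ltr} (h : l :: w = Cw i ++ y) :
    push l w = y := by
  have hex : ∃ (y : List Ltr) (i : ℕ), l :: w = Cw i ++ y := ⟨y, i, h⟩
  unfold push
  rw [dif_pos hex]
  obtain ⟨j, hj⟩ := hex.choose_spec
  exact (Cw_inj (hj.symm.trans h)).2

theorem push_not {l : Ltr} {w : List Ltr} (h : ∀ i y, l :: w ≠ Cw i ++ y) : push l w = l :: w := by
  unfold push
  rw [dif_neg]
  rintro ⟨y, i, hy⟩
  exact h i y hy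

theorem push_cases (l : Ltr) (w : List Ltr) :
    (∃ i y, l :: w = Cw i ++ y ∧ push l w = y) ∨
      ((∀ i y, l :: w ≠ Cw i ++ y) ∧ push l w = l :: w) := by
  by_cases h : ∃ i y, l :: w = Cw i ++ y
  · obtain ⟨i, y, hy⟩ := h
    exact Or.inl ⟨i, y, hy, push_red hy⟩
  · push Not at h
    exact Or.inr ⟨h, push_not h⟩

theorem push_ne_a {l : Ltr} (hl : l ≠ a) (w : List Ltr) : push l w = l :: w :=
  push_not (by
    intro i y h
    rw [Cw_eq] at h
    simp only [List.cons_append, List.cons.injEq] at h
    exact hl h.1)

theorem irr_push {l : Ltr} {w : List Ltr} (h : Irr w) : Irr (push l w) := by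
  rcases push_cases l w with ⟨i, y, h1, h2⟩ | ⟨h1, h2⟩
  · rw [h2]
    rw [Cw_eq] at h1
    simp only [List.cons_append, List.cons.injEq] at h1
    rw [h1.2] at h
    exact h.right
  · rw [h2]
    intro x i y hx
    cases x with
    | nil => exact h1 i y hx
    | cons l' x =>
      simp only [List.cons_append, List.cons.injEq] at hx
      exact h x i y hx.2

/-- the action of words on irreducible words -/
noncomputable def act (u s : List Ltr) : List Ltr := u.foldr push s

theorem act_nil (s : List Ltr) : act [] s = s := rfl

theorem act_cons (l : Ltr) (u s : List Ltr) : act (l :: u) s = push l (act u s) := rfl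

theorem act_append (u v s : List Ltr) : act (u ++ v) s = act u (act v s) := by
  simp [act, List.foldr_append]

theorem irr_act (u : List Ltr) {s : List Ltr} (h : Irr s) : Irr (act u s) := by
  induction u with
  | nil => exact h
  | cons l u ih => exact irr_push ih

theorem act_of_irr (u s : List Ltr) (h : Irr (u ++ s)) : act u s = u ++ s := by
  induction u with
  | nil => rfl
  | cons l u ih =>
    rw [act_cons, ih h.tail]
    exact push_not (fun i y hy => h [] i y hy)

theorem act_bc (u s : List Ltr) (h : ∀ l ∈ u, l ≠ a) : act u s = u ++ s := by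
  induction u with
  | nil => rfl
  | cons l u ih =>
    rw [act_cons, ih (fun l' hl' => h l' (List.mem_cons_of_mem _ hl')),
      push_ne_a (h l (by simp))]
    rfl

theorem act_X_eq (i : ℕ) (s : List Ltr) : act (X i) s = push a (List.replicate i b ++ c :: s) := by
  have : act (List.replicate i b ++ [c]) s = (List.replicate i b ++ [c]) ++ s := by
    refine act_bc _ _ ?_
    intro l hl
    rw [List.mem_append] at hl
    rcases hl with hl | hl
    · rw [(List.mem_replicate.1 hl).2]; decide
    · rw [List.mem_singleton.1 hl]; decide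
  unfold X
  rw [act_cons, this]
  simp

theorem act_X_X (i : ℕ) (t : List Ltr) : act (X i) (X i ++ t) = t := by
  rw [act_X_eq]
  refine push_red (i := i) ?_
  simp [Cw, X]

theorem act_X_not (i : ℕ) (s : List Ltr) (h : ∀ t, s ≠ X i ++ t) : act (X i) s = X i ++ s := by
  rw [act_X_eq, push_not]
  · simp [X]
  · intro j y hy
    have h1 : X i ++ s = X j ++ (X j ++ y) := by
      have e : X i ++ s = a :: (List.replicate i b ++ c :: s) := by simp [X]
      rw [e, hy, Cw, List.append_assoc]
    obtain ⟨rfl, h2⟩ := X_inj h1
    exact h _ h2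

theorem act_Cw (i : ℕ) {s : List Ltr} (hs : Irr s) : act (Cw i) s = s := by
  unfold Cw
  rw [act_append]
  by_cases h : ∃ t, s = X i ++ t
  · obtain ⟨t, rfl⟩ := h
    rw [act_X_X, act_X_not]
    rintro t' rfl
    exact hs [] i t' (by simp [Cw])
  · push Not at h
    rw [act_X_not i s h, act_X_X]

/-- the action only depends on the normal form -/
theorem act_nf (u : List Ltr) {s : List Ltr} (hs : Irr s) : act u s = act (act u []) s := by
  induction u with
  | nil => rfl
  | cons l u ih =>
    rw [act_cons, act_cons, ih]
    rcases push_cases l (act u []) with ⟨i, y, h1, h2⟩ | ⟨h1, h2⟩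
    · rw [h2, ← act_cons, h1, act_append, act_Cw i (irr_act y hs)]
    · rw [h2, act_cons]

/-- products of words `a b^i c` with `i ≤ N` -/
inductive XX (N : ℕ) : List Ltr → Prop
  | nil : XX N []
  | cons (i : ℕ) (w : List Ltr) : i ≤ N → XX N w → XX N (X i ++ w)

theorem XX.mono {N N' : ℕ} (h : N ≤ N') {w : List Ltr} (hw : XX N w) : XX N' w := by
  induction hw with
  | nil => exact XX.nil
  | cons i w hi _ ih => exact XX.cons i w (hi.trans h) ih

theorem XX.tail {N i : ℕ} {t : List Ltr} (h : XX N (X i ++ t)) : i ≤ N ∧ XX N t := by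
  generalize hz : X i ++ t = z at h
  cases h with
  | nil => simp [X] at hz
  | cons j w hj hw =>
    obtain ⟨rfl, rfl⟩ := X_inj hz
    exact ⟨hj, hw⟩

theorem XX.act {N : ℕ} {w v : List Ltr} (hw : XX N w) (hv : XX N v) : XX N (act w v) := by
  induction hw with
  | nil => exact hv
  | cons i w hi _ ih =>
    rw [act_append]
    by_cases h : ∃ t, Pool.Agent.N87.CFU.act w v = X i ++ t
    · obtain ⟨t, ht⟩ := h
      rw [ht, act_X_X]
      rw [ht] at ih
      exact ih.tail.2
    · push Not at h
      rw [act_X_not i _ h]
      exact XX.cons i _ hi ih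

/-- A reducible product of two irreducible words can be reduced across the boundary. -/
theorem straddle {w s : List Ltr} (hw : Irr w) (hs : Irr s) (h : ¬ Irr (w ++ s)) :
    ∃ (w' p q s' : List Ltr) (i : ℕ), w = w' ++ p ∧ s = q ++ s' ∧ Cw i = p ++ q ∧ p ≠ [] ∧
      q ≠ [] := by
  unfold Irr at h
  push Not at h
  obtain ⟨x, i, y, hxy⟩ := h
  rcases List.append_eq_append_iff.1 hxy with ⟨a', h1, h2⟩ | ⟨c', h1, h2⟩
  · exact absurd h2 (hs a' i y)
  · rcases List.append_eq_append_iff.1 h2 with ⟨a'', h3, h4⟩ | ⟨c'', h3, h4⟩
    · exact absurd (by rw [h1, h3]) (hw x i a'')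
    · refine ⟨x, c', c'', y, i, h1, h4, h3, ?_, ?_⟩
      · rintro rfl
        rw [List.nil_append] at h3
        exact hs [] i y (by rw [h4, h3]; rfl)
      · rintro rfl
        rw [List.append_nil] at h3
        exact hw x i [] (by rw [h1, h3, List.append_nil])

/-- the result of the reduction across the boundary -/
theorem act_straddle {w' p q s' : List Ltr} {i : ℕ} (hs : Irr (q ++ s')) (hC : Cw i = p ++ q) :
    act (w' ++ p) (q ++ s') = act w' s' := by
  rw [act_append, ← act_of_irr q s' hs, ← act_append p q, ← hC, act_Cw i hs.right]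

/-- if `w s = 1` then `w` starts with `a` -/
theorem starts_a : ∀ (n : ℕ) (w s : List Ltr), w.length = n → Irr w → Irr s → act w s = [] →
    w ≠ [] → ∃ w₁, w = a :: w₁ := by
  intro n
  induction n using Nat.strong_induction_on with
  | _ n ih =>
    intro w s hn hw hs h hne
    by_cases hirr : Irr (w ++ s)
    · rw [act_of_irr w s hirr] at h
      exact absurd (List.append_eq_nil_iff.1 h).1 hne
    · obtain ⟨w', p, q, s', i, rfl, rfl, hC, hp, hq⟩ := straddle hw hs hirr
      rw [act_straddle hs hC] at h
      cases w' with
      | nil =>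
        cases p with
        | nil => exact absurd rfl hp
        | cons l p =>
          rw [Cw_eq] at hC
          simp only [List.cons_append, List.cons.injEq] at hC
          exact ⟨p, by rw [← hC.1]; rfl⟩
      | cons l w' =>
        have hlen : (l :: w').length < n := by
          rw [← hn, List.length_append]
          have := List.length_pos_of_ne_nil hp
          omega
        obtain ⟨w₁, h1⟩ := ih _ hlen (l :: w') s' rfl hw.left hs.right h (by simp)
        exact ⟨w₁ ++ p, by rw [h1]; rfl⟩

/-- a word starting with `a` which is the right factor of an equation `s w = 1` starts with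
some `a b^i c` -/
theorem starts_X {w s : List Ltr} (hw : Irr (a :: w)) (hs : Irr s) (h : act s (a :: w) = []) :
    ∃ i t, a :: w = X i ++ t := by
  have hirr : ¬ Irr (s ++ a :: w) := by
    intro hirr
    rw [act_of_irr s _ hirr] at h
    simp at h
  obtain ⟨s', p, q, w', i, rfl, h2, hC, hp, hq⟩ := straddle hs hw hirr
  cases q with
  | nil => exact absurd rfl hq
  | cons l q =>
    simp only [List.cons_append, List.cons.injEq] at h2
    obtain ⟨rfl, h3⟩ := h2
    cases p with
    | nil => exact absurd rfl hp
    | cons l p =>
      rw [Cw_eq] at hC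
      simp only [List.cons_append, List.cons.injEq] at hC
      have e : Mi i ++ [c] = (List.replicate i b ++ [c]) ++ a :: (List.replicate i b ++ [c]) := by
        simp [Mi]
      rw [e] at hC
      have hna : a ∉ List.replicate i b ++ [c] := by
        intro hmem
        rw [List.mem_append] at hmem
        rcases hmem with hm | hm
        · exact absurd (List.mem_replicate.1 hm).2 (by decide)
        · exact absurd (List.mem_singleton.1 hm) (by decide)
      have hq' : q = List.replicate i b ++ [c] := by
        rcases List.append_eq_append_iff.1 hC.2 with ⟨z, h4, h5⟩ | ⟨z, h4, h5⟩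
        · cases z with
          | nil => simpa using h5.symm
          | cons l' z =>
            simp only [List.cons_append, List.cons.injEq] at h5
            exact absurd (by rw [h5.2]; simp) hna
        · cases z with
          | nil => simpa using h5
          | cons l' z =>
            simp only [List.cons_append, List.cons.injEq] at h5
            exact absurd (by rw [h4, ← h5.1]; simp) hna
      exact ⟨i, w', by rw [h3, hq']; simp [X]⟩

end Pool.Agent.N87.CFU
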