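import Mathlib

set_option autoImplicit false

/-! # Context-free grammars: soundness and completeness with respect to languages -/

namespace Pool.Agent.N87.CFU

variable {T : Type}

/-- the language of a symbol, given the languages of the nonterminals -/
def sI {N : Type} (I : N → Language T) : Symbol T N → Language T
  | .terminal t => {[t]}
  | .nonterminal n => I n

/-- the language of a sentential form -/
def fI {N : Type} (I : N → Language T) (u : List (Symbol T N)) : Language T := (u.map (sI I)).prod

theorem fI_nil {N : Type} (I : N → Language T) : fI I [] = 1 := rfl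

theorem fI_cons {N : Type} (I : N → Language T) (s : Symbol T N) (u : List (Symbol T N)) :
    fI I (s :: u) = sI I s * fI I u := rfl

theorem fI_append {N : Type} (I : N → Language T) (u v : List (Symbol T N)) :
    fI I (u ++ v) = fI I u * fI I v := by
  simp [fI]

theorem mem_fI_terminal {N : Type} (I : N → Language T) (w : List T) :
    w ∈ fI I (w.map Symbol.terminal) := by
  induction w with
  | nil => exact rfl
  | cons t w ih =>
    rw [List.map_cons, fI_cons]
    exact Language.mem_mul.2 ⟨[t], rfl, w, ih, rfl⟩

/-- soundness -/
theorem sound (g : ContextFreeGrammar T) (I : g.NT → Language T)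
    (h : ∀ r ∈ g.rules, fI I r.output ≤ I r.input) {n : g.NT} {w : List T}
    (hd : g.Derives [Symbol.nonterminal n] (w.map Symbol.terminal)) : w ∈ I n := by
  have key : ∀ u v : List (Symbol T g.NT), g.Derives u v → fI I v ≤ fI I u := by
    intro u v huv
    induction huv with
    | refl => exact le_rfl
    | tail _ hp ih =>
      refine le_trans ?_ ih
      obtain ⟨r, hr, hrw⟩ := hp
      obtain ⟨p, q, h1, h2⟩ := hrw.exists_parts
      rw [h1, h2, fI_append, fI_append, fI_append, fI_append]
      refine mul_le_mul' (mul_le_mul' le_rfl ?_) le_rfl
      rw [fI_cons, fI_nil, mul_one]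
      exact h r hr
  have h1 := key _ _ hd (mem_fI_terminal I w)
  rw [fI_cons, fI_nil, mul_one] at h1
  exact h1

/-- the language derived from a nonterminal -/
def LN (g : ContextFreeGrammar T) (n : g.NT) : Language T :=
  {w | g.Derives [Symbol.nonterminal n] (w.map Symbol.terminal)}

theorem derives_of_mem (g : ContextFreeGrammar T) (u : List (Symbol T g.NT)) :
    ∀ w ∈ fI (LN g) u, g.Derives u (w.map Symbol.terminal) := by
  induction u with
  | nil =>
    intro w hw
    have : w = [] := hw
    subst this
    exact ContextFreeGrammar.Derives.refl _
  | cons s u ih =>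
    intro w hw
    rw [fI_cons] at hw
    obtain ⟨a, ha, b, hb, rfl⟩ := Language.mem_mul.1 hw
    rw [List.map_append]
    have h1 : g.Derives ([s] ++ u) (a.map Symbol.terminal ++ u) := by
      refine ContextFreeGrammar.Derives.append_right ?_ u
      cases s with
      | terminal t =>
        have : a = [t] := ha
        subst this
        exact ContextFreeGrammar.Derives.refl _
      | nonterminal n => exact ha
    exact h1.trans (ContextFreeGrammar.Derives.append_left (ih b hb) _)

/-- completeness -/
theorem complete (g : ContextFreeGrammar T) (r : ContextFreeRule T g.NT) (hr : r ∈ g.rules) :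
    fI (LN g) r.output ≤ LN g r.input := by
  intro w hw
  have h1 : r.Rewrites [Symbol.nonterminal r.input] r.output := by
    have := r.rewrites_of_exists_parts [] []
    simpa using this
  exact ContextFreeGrammar.Produces.trans_derives ⟨r, hr, h1⟩ (derives_of_mem g _ w hw)

end Pool.Agent.N87.CFU
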