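import Pool.Agent.N87.CFU.Mon
import Pool.Agent.N87.CFU.Gram

set_option autoImplicit false

/-! # The word problem of `⟨a, b, c | (a b^i c)^2 = 1, i ≥ 0⟩` is context-free -/

namespace Pool.Agent.N87.CFU

open Ltr

/-- The word problem of `M` with respect to `φ : A → M`: the words `u # v^rev` with `u`, `v` of the
same value; the letter `x` of `A` is written `some x` and `#` is written `none`. -/
def WP {M A : Type} [Monoid M] (φ : A → M) : Language (Option A) :=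
  {z | ∃ u v : List A, (u.map φ).prod = (v.map φ).prod ∧
    z = u.map some ++ none :: v.reverse.map some}

inductive NT : Type
  | S
  | P
  | R
  | Q
  | Z
  deriving DecidableEq

abbrev Sy := Symbol (Option Ltr) NT

/-- terminal -/
abbrev t (l : Ltr) : Sy := Symbol.terminal (some l)

/-- nonterminal -/
abbrev n (x : NT) : Sy := Symbol.nonterminal x

/-- the rules -/
def rulesList : List (ContextFreeRule (Option Ltr) NT) :=
  [⟨NT.S, []⟩,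
   ⟨NT.S, [t a, n NT.S, n NT.P, t c, n NT.S]⟩,
   ⟨NT.P, [t b, n NT.S, n NT.P, t b, n NT.S]⟩,
   ⟨NT.P, [t c, n NT.S, t a, n NT.S]⟩,
   ⟨NT.R, []⟩,
   ⟨NT.R, [n NT.R, t c, n NT.Q, n NT.R, t a]⟩,
   ⟨NT.Q, [n NT.R, t b, n NT.Q, n NT.R, t b]⟩,
   ⟨NT.Q, [n NT.R, t a, n NT.R, t c]⟩,
   ⟨NT.Z, [n NT.S, Symbol.terminal none, n NT.R]⟩,
   ⟨NT.Z, [n NT.S, t a, n NT.Z, t a, n NT.R]⟩,
   ⟨NT.Z, [n NT.S, t b, n NT.Z, t b, n NT.R]⟩,
   ⟨NT.Z, [n NT.S, t c, n NT.Z, t c, n NT.R]⟩]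

open Classical in
/-- the grammar -/
noncomputable def G : ContextFreeGrammar (Option Ltr) where
  NT := NT
  initial := NT.Z
  rules := rulesList.toFinset

theorem mem_rules (r : ContextFreeRule (Option Ltr) NT) : r ∈ G.rules ↔ r ∈ rulesList := by
  classical
  exact List.mem_toFinset

/-- the languages of the nonterminals -/
def I : NT → Language (Option Ltr)
  | NT.S => {z | ∃ w : List Ltr, z = w.map some ∧ ev w = 1}
  | NT.P => {z | ∃ (w : List Ltr) (i : ℕ), z = w.map some ∧ ev w = ev (Mi i)}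
  | NT.R => {z | ∃ w : List Ltr, z = w.reverse.map some ∧ ev w = 1}
  | NT.Q => {z | ∃ (w : List Ltr) (i : ℕ), z = w.reverse.map some ∧ ev w = ev (Mi i)}
  | NT.Z => WP φ

theorem Mi_succ (i : ℕ) : Mi (i + 1) = b :: (Mi i ++ [b]) := by
  have h : List.replicate (i + 1) b = List.replicate i b ++ [b] := List.replicate_succ'
  show (b :: List.replicate i b) ++ (c :: a :: List.replicate (i + 1) b) = _
  rw [h]
  simp [Mi]

section shapes

variable (J : NT → Language (Option Ltr))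

theorem mem_t (x : Ltr) (z : List (Option Ltr)) : z ∈ sI J (t x) ↔ z = [some x] := Iff.rfl

theorem mem_none (z : List (Option Ltr)) : z ∈ sI J (Symbol.terminal none) ↔ z = [none] := Iff.rfl

theorem mem_n (x : NT) (z : List (Option Ltr)) : z ∈ sI J (n x) ↔ z ∈ J x := Iff.rfl

theorem shape1 (x y : Ltr) (A B C : NT) (z : List (Option Ltr)) :
    z ∈ fI J [t x, n A, n B, t y, n C] ↔
      ∃ s ∈ J A, ∃ p ∈ J B, ∃ s' ∈ J C, z = some x :: (s ++ (p ++ some y :: s')) := by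
  simp only [fI_cons, fI_nil, mul_one, Language.mem_mul, mem_t, mem_n]
  constructor
  · rintro ⟨_, rfl, _, ⟨s, hs, _, ⟨p, hp, _, ⟨_, rfl, s', hs', rfl⟩, rfl⟩, rfl⟩, rfl⟩
    exact ⟨s, hs, p, hp, s', hs', rfl⟩
  · rintro ⟨s, hs, p, hp, s', hs', rfl⟩
    exact ⟨_, rfl, _, ⟨s, hs, _, ⟨p, hp, _, ⟨_, rfl, s', hs', rfl⟩, rfl⟩, rfl⟩, rfl⟩

theorem shape2 (x y : Ltr) (A C : NT) (z : List (Option Ltr)) :
    z ∈ fI J [t x, n A, t y, n C] ↔
      ∃ s ∈ J A, ∃ s' ∈ J C, z = some x :: (s ++ some y :: s') := by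
  simp only [fI_cons, fI_nil, mul_one, Language.mem_mul, mem_t, mem_n]
  constructor
  · rintro ⟨_, rfl, _, ⟨s, hs, _, ⟨_, rfl, s', hs', rfl⟩, rfl⟩, rfl⟩
    exact ⟨s, hs, s', hs', rfl⟩
  · rintro ⟨s, hs, s', hs', rfl⟩
    exact ⟨_, rfl, _, ⟨s, hs, _, ⟨_, rfl, s', hs', rfl⟩, rfl⟩, rfl⟩

theorem shape3 (x y : Ltr) (A B C : NT) (z : List (Option Ltr)) :
    z ∈ fI J [n A, t x, n B, n C, t y] ↔
      ∃ s ∈ J A, ∃ p ∈ J B, ∃ s' ∈ J C, z = s ++ some x :: (p ++ (s' ++ [some y])) := by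
  simp only [fI_cons, fI_nil, mul_one, Language.mem_mul, mem_t, mem_n]
  constructor
  · rintro ⟨s, hs, _, ⟨_, rfl, _, ⟨p, hp, _, ⟨s', hs', _, rfl, rfl⟩, rfl⟩, rfl⟩, rfl⟩
    exact ⟨s, hs, p, hp, s', hs', rfl⟩
  · rintro ⟨s, hs, p, hp, s', hs', rfl⟩
    exact ⟨s, hs, _, ⟨_, rfl, _, ⟨p, hp, _, ⟨s', hs', _, rfl, rfl⟩, rfl⟩, rfl⟩, rfl⟩

theorem shape4 (x y : Ltr) (A C : NT) (z : List (Option Ltr)) :
    z ∈ fI J [n A, t x, n C, t y] ↔
      ∃ s ∈ J A, ∃ s' ∈ J C, z = s ++ some x :: (s' ++ [some y]) := by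
  simp only [fI_cons, fI_nil, mul_one, Language.mem_mul, mem_t, mem_n]
  constructor
  · rintro ⟨s, hs, _, ⟨_, rfl, _, ⟨s', hs', _, rfl, rfl⟩, rfl⟩, rfl⟩
    exact ⟨s, hs, s', hs', rfl⟩
  · rintro ⟨s, hs, s', hs', rfl⟩
    exact ⟨s, hs, _, ⟨_, rfl, _, ⟨s', hs', _, rfl, rfl⟩, rfl⟩, rfl⟩

theorem shape5 (A C : NT) (z : List (Option Ltr)) :
    z ∈ fI J [n A, Symbol.terminal none, n C] ↔
      ∃ s ∈ J A, ∃ s' ∈ J C, z = s ++ none :: s' := by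
  simp only [fI_cons, fI_nil, mul_one, Language.mem_mul, mem_none, mem_n]
  constructor
  · rintro ⟨s, hs, _, ⟨_, rfl, s', hs', rfl⟩, rfl⟩
    exact ⟨s, hs, s', hs', rfl⟩
  · rintro ⟨s, hs, s', hs', rfl⟩
    exact ⟨s, hs, _, ⟨_, rfl, s', hs', rfl⟩, rfl⟩

theorem shape6 (x y : Ltr) (A B C : NT) (z : List (Option Ltr)) :
    z ∈ fI J [n A, t x, n B, t y, n C] ↔
      ∃ s ∈ J A, ∃ p ∈ J B, ∃ s' ∈ J C, z = s ++ some x :: (p ++ some y :: s') := by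
  simp only [fI_cons, fI_nil, mul_one, Language.mem_mul, mem_t, mem_n]
  constructor
  · rintro ⟨s, hs, _, ⟨_, rfl, _, ⟨p, hp, _, ⟨_, rfl, s', hs', rfl⟩, rfl⟩, rfl⟩, rfl⟩
    exact ⟨s, hs, p, hp, s', hs', rfl⟩
  · rintro ⟨s, hs, p, hp, s', hs', rfl⟩
    exact ⟨s, hs, _, ⟨_, rfl, _, ⟨p, hp, _, ⟨_, rfl, s', hs', rfl⟩, rfl⟩, rfl⟩, rfl⟩

end shapes

theorem soundZ (x : Ltr) : fI I [n NT.S, t x, n NT.Z, t x, n NT.R] ≤ I NT.Z := by
  intro z hz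
  obtain ⟨s, ⟨w1, rfl, h1⟩, p, ⟨u, v, huv, rfl⟩, s', ⟨w2, rfl, h2⟩, rfl⟩ :=
    (shape6 I _ _ _ _ _ z).1 hz
  refine ⟨w1 ++ x :: u, w2 ++ x :: v, ?_, by simp⟩
  change ev u = ev v at huv
  change ev _ = ev _
  rw [ev_append, ev_append, ev_cons, ev_cons, h1, h2, huv]

theorem rules_ok (r : ContextFreeRule (Option Ltr) NT) (hr : r ∈ rulesList) :
    fI I r.output ≤ I r.input := by
  simp only [rulesList, List.mem_cons, List.not_mem_nil, or_false] at hr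
  rcases hr with rfl | rfl | rfl | rfl | rfl | rfl | rfl | rfl | rfl | rfl | rfl | rfl
  · intro z hz
    exact ⟨[], hz, rfl⟩
  · intro z hz
    obtain ⟨s, ⟨w1, rfl, h1⟩, p, ⟨w2, i, rfl, h2⟩, s', ⟨w3, rfl, h3⟩, rfl⟩ :=
      (shape1 I _ _ _ _ _ z).1 hz
    refine ⟨a :: (w1 ++ (w2 ++ c :: w3)), by simp, ?_⟩
    have e := ev_Cw i
    rw [Cw_eq, ev_cons, ev_append, ev_cons, ev_nil] at e
    rw [ev_cons, ev_append, ev_append, ev_cons, h1, h2, h3, one_mul]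
    exact e
  · intro z hz
    obtain ⟨s, ⟨w1, rfl, h1⟩, p, ⟨w2, i, rfl, h2⟩, s', ⟨w3, rfl, h3⟩, rfl⟩ :=
      (shape1 I _ _ _ _ _ z).1 hz
    refine ⟨b :: (w1 ++ (w2 ++ b :: w3)), i + 1, by simp, ?_⟩
    rw [ev_cons, ev_append, ev_append, ev_cons, h1, h2, h3, Mi_succ, ev_cons, ev_append,
      ev_cons, ev_nil, one_mul]
  · intro z hz
    obtain ⟨s, ⟨w1, rfl, h1⟩, s', ⟨w3, rfl, h3⟩, rfl⟩ := (shape2 I _ _ _ _ z).1 hz
    refine ⟨c :: (w1 ++ a :: w3), 0, by simp, ?_⟩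
    rw [ev_cons, ev_append, ev_cons, h1, h3, one_mul]
    simp [Mi, ev]
  · intro z hz
    exact ⟨[], hz, rfl⟩
  · intro z hz
    obtain ⟨s, ⟨w1, rfl, h1⟩, p, ⟨w2, i, rfl, h2⟩, s', ⟨w3, rfl, h3⟩, rfl⟩ :=
      (shape3 I _ _ _ _ _ z).1 hz
    refine ⟨a :: (w3 ++ (w2 ++ c :: w1)), by simp, ?_⟩
    have e := ev_Cw i
    rw [Cw_eq, ev_cons, ev_append, ev_cons, ev_nil] at e
    rw [ev_cons, ev_append, ev_append, ev_cons, h1, h2, h3, one_mul]
    exact e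
  · intro z hz
    obtain ⟨s, ⟨w1, rfl, h1⟩, p, ⟨w2, i, rfl, h2⟩, s', ⟨w3, rfl, h3⟩, rfl⟩ :=
      (shape3 I _ _ _ _ _ z).1 hz
    refine ⟨b :: (w3 ++ (w2 ++ b :: w1)), i + 1, by simp, ?_⟩
    rw [ev_cons, ev_append, ev_append, ev_cons, h1, h2, h3, Mi_succ, ev_cons, ev_append,
      ev_cons, ev_nil, one_mul]
  · intro z hz
    obtain ⟨s, ⟨w1, rfl, h1⟩, s', ⟨w3, rfl, h3⟩, rfl⟩ := (shape4 I _ _ _ _ z).1 hz
    refine ⟨c :: (w3 ++ a :: w1), 0, by simp, ?_⟩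
    rw [ev_cons, ev_append, ev_cons, h1, h3, one_mul]
    simp [Mi, ev]
  · intro z hz
    obtain ⟨s, ⟨w1, rfl, h1⟩, s', ⟨w2, rfl, h2⟩, rfl⟩ := (shape5 I _ _ z).1 hz
    exact ⟨w1, w2, h1.trans h2.symm, rfl⟩
  · exact soundZ a
  · exact soundZ b
  · exact soundZ c

/-- the languages derived in the grammar -/
def L (x : NT) : Language (Option Ltr) := LN G x

theorem rule_mem {r : ContextFreeRule (Option Ltr) NT} (hr : r ∈ rulesList) :
    fI L r.output ≤ L r.input := complete G r ((mem_rules r).2 hr)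

theorem S_nil : ([] : List (Option Ltr)) ∈ L NT.S :=
  rule_mem (r := ⟨NT.S, []⟩) (by simp [rulesList]) (show [] ∈ fI L [] from rfl)

theorem S_rule {s p s' : List (Option Ltr)} (hs : s ∈ L NT.S) (hp : p ∈ L NT.P)
    (hs' : s' ∈ L NT.S) : some a :: (s ++ (p ++ some c :: s')) ∈ L NT.S :=
  rule_mem (r := ⟨NT.S, [t a, n NT.S, n NT.P, t c, n NT.S]⟩) (by simp [rulesList])
    ((shape1 L _ _ _ _ _ _).2 ⟨s, hs, p, hp, s', hs', rfl⟩)

theorem P_rule {s p s' : List (Option Ltr)} (hs : s ∈ L NT.S) (hp : p ∈ L NT.P)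
    (hs' : s' ∈ L NT.S) : some b :: (s ++ (p ++ some b :: s')) ∈ L NT.P :=
  rule_mem (r := ⟨NT.P, [t b, n NT.S, n NT.P, t b, n NT.S]⟩) (by simp [rulesList])
    ((shape1 L _ _ _ _ _ _).2 ⟨s, hs, p, hp, s', hs', rfl⟩)

theorem P_rule0 {s s' : List (Option Ltr)} (hs : s ∈ L NT.S)
    (hs' : s' ∈ L NT.S) : some c :: (s ++ some a :: s') ∈ L NT.P :=
  rule_mem (r := ⟨NT.P, [t c, n NT.S, t a, n NT.S]⟩) (by simp [rulesList])
    ((shape2 L _ _ _ _ _).2 ⟨s, hs, s', hs', rfl⟩)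

theorem R_nil : ([] : List (Option Ltr)) ∈ L NT.R :=
  rule_mem (r := ⟨NT.R, []⟩) (by simp [rulesList]) (show [] ∈ fI L [] from rfl)

theorem R_rule {s p s' : List (Option Ltr)} (hs : s ∈ L NT.R) (hp : p ∈ L NT.Q)
    (hs' : s' ∈ L NT.R) : s ++ some c :: (p ++ (s' ++ [some a])) ∈ L NT.R :=
  rule_mem (r := ⟨NT.R, [n NT.R, t c, n NT.Q, n NT.R, t a]⟩) (by simp [rulesList])
    ((shape3 L _ _ _ _ _ _).2 ⟨s, hs, p, hp, s', hs', rfl⟩)

theorem Q_rule {s p s' : List (Option Ltr)} (hs : s ∈ L NT.R) (hp : p ∈ L NT.Q)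
    (hs' : s' ∈ L NT.R) : s ++ some b :: (p ++ (s' ++ [some b])) ∈ L NT.Q :=
  rule_mem (r := ⟨NT.Q, [n NT.R, t b, n NT.Q, n NT.R, t b]⟩) (by simp [rulesList])
    ((shape3 L _ _ _ _ _ _).2 ⟨s, hs, p, hp, s', hs', rfl⟩)

theorem Q_rule0 {s s' : List (Option Ltr)} (hs : s ∈ L NT.R)
    (hs' : s' ∈ L NT.R) : s ++ some a :: (s' ++ [some c]) ∈ L NT.Q :=
  rule_mem (r := ⟨NT.Q, [n NT.R, t a, n NT.R, t c]⟩) (by simp [rulesList])
    ((shape4 L _ _ _ _ _).2 ⟨s, hs, s', hs', rfl⟩)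

theorem Z_nil {s s' : List (Option Ltr)} (hs : s ∈ L NT.S)
    (hs' : s' ∈ L NT.R) : s ++ none :: s' ∈ L NT.Z :=
  rule_mem (r := ⟨NT.Z, [n NT.S, Symbol.terminal none, n NT.R]⟩) (by simp [rulesList])
    ((shape5 L _ _ _).2 ⟨s, hs, s', hs', rfl⟩)

theorem Z_rule (x : Ltr) {s p s' : List (Option Ltr)} (hs : s ∈ L NT.S) (hp : p ∈ L NT.Z)
    (hs' : s' ∈ L NT.R) : s ++ some x :: (p ++ some x :: s') ∈ L NT.Z :=
  rule_mem (r := ⟨NT.Z, [n NT.S, t x, n NT.Z, t x, n NT.R]⟩) (by cases x <;> simp [rulesList])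
    ((shape6 L _ _ _ _ _ _).2 ⟨s, hs, p, hp, s', hs', rfl⟩)

/-- reversed languages -/
def Irev : NT → Language (Option Ltr)
  | NT.S => {z | z.reverse ∈ L NT.R}
  | NT.P => {z | z.reverse ∈ L NT.Q}
  | _ => {_z | True}

theorem rev_ok (r : ContextFreeRule (Option Ltr) NT) (hr : r ∈ rulesList) :
    fI Irev r.output ≤ Irev r.input := by
  simp only [rulesList, List.mem_cons, List.not_mem_nil, or_false] at hr
  rcases hr with rfl | rfl | rfl | rfl | rfl | rfl | rfl | rfl | rfl | rfl | rfl | rfl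
  · intro z hz
    have : z = [] := hz
    subst this
    exact R_nil
  · intro z hz
    obtain ⟨s, hs, p, hp, s', hs', rfl⟩ := (shape1 Irev _ _ _ _ _ z).1 hz
    have := R_rule hs' hp hs
    show List.reverse _ ∈ L NT.R
    simpa using this
  · intro z hz
    obtain ⟨s, hs, p, hp, s', hs', rfl⟩ := (shape1 Irev _ _ _ _ _ z).1 hz
    have := Q_rule hs' hp hs
    show List.reverse _ ∈ L NT.Q
    simpa using this
  · intro z hz
    obtain ⟨s, hs, s', hs', rfl⟩ := (shape2 Irev _ _ _ _ z).1 hz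
    have := Q_rule0 hs' hs
    show List.reverse _ ∈ L NT.Q
    simpa using this
  all_goals exact fun _ _ => trivial

theorem rev_mem {z : List (Option Ltr)} (hz : z ∈ L NT.S) : z.reverse ∈ L NT.R :=
  sound G Irev (fun r hr => rev_ok r ((mem_rules r).1 hr)) (n := NT.S) hz

/-- words `x₁ s₁ x₂ s₂ ⋯ xₙ sₙ` with `sᵢ` in the language of `S` -/
def Fd : List Ltr → List (Option Ltr) → Prop
  | [], z => z = []
  | x :: w, z => ∃ s ∈ L NT.S, ∃ z', z = some x :: (s ++ z') ∧ Fd w z'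

theorem Fd_append : ∀ (u v : List Ltr) (z : List (Option Ltr)), Fd (u ++ v) z →
    ∃ z1 z2, z = z1 ++ z2 ∧ Fd u z1 ∧ Fd v z2 := by
  intro u
  induction u with
  | nil => exact fun v z h => ⟨[], z, rfl, rfl, h⟩
  | cons x u ih =>
    rintro v z ⟨s, hs, z', rfl, h⟩
    obtain ⟨z1, z2, rfl, h1, h2⟩ := ih v z' h
    exact ⟨some x :: (s ++ z1), z2, by simp, ⟨s, hs, z1, rfl, h1⟩, h2⟩

theorem Fd_Mi : ∀ (i : ℕ) (z : List (Option Ltr)), Fd (Mi i) z → z ∈ L NT.P := by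
  intro i
  induction i with
  | zero =>
    rintro z ⟨s, hs, z', rfl, s', hs', z'', rfl, rfl⟩
    rw [List.append_nil]
    exact P_rule0 hs hs'
  | succ i ih =>
    intro z h
    rw [Mi_succ] at h
    obtain ⟨s, hs, z', rfl, h⟩ := h
    obtain ⟨z1, z2, rfl, h1, s', hs', z3, rfl, rfl⟩ := Fd_append _ _ _ h
    rw [List.append_nil]
    exact P_rule hs (ih z1 h1) hs'

/-- words `s₀ x₁ s₁ x₂ s₂ ⋯ xₙ sₙ` -/
def Dec (w : List Ltr) (z : List (Option Ltr)) : Prop :=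
  ∃ s ∈ L NT.S, ∃ z', z = s ++ z' ∧ Fd w z'

theorem Fd_Cw (i : ℕ) (y : List Ltr) (z : List (Option Ltr)) (h : Fd (Cw i ++ y) z) :
    Dec y z := by
  have e : Cw i ++ y = a :: (Mi i ++ (c :: y)) := by rw [Cw_eq]; simp
  rw [e] at h
  obtain ⟨s, hs, z', rfl, h⟩ := h
  obtain ⟨z1, z2, rfl, h1, s', hs', z3, rfl, h3⟩ := Fd_append _ _ _ h
  exact ⟨_, S_rule hs (Fd_Mi i z1 h1) hs', z3, by simp, h3⟩

theorem dec (u : List Ltr) : Dec (act u []) (u.map some) := by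
  induction u with
  | nil => exact ⟨[], S_nil, [], rfl, rfl⟩
  | cons l u ih =>
    obtain ⟨s, hs, z', h1, h2⟩ := ih
    have h3 : Fd (l :: act u []) ((l :: u).map some) := ⟨s, hs, z', by rw [List.map_cons, h1], h2⟩
    rw [act_cons]
    rcases push_cases l (act u []) with ⟨i, y, h4, h5⟩ | ⟨h4, h5⟩
    · rw [h5]
      rw [h4] at h3
      exact Fd_Cw i y _ h3
    · rw [h5]
      exact ⟨[], S_nil, _, rfl, h3⟩

theorem dec_Z : ∀ (w : List Ltr) (z1 z2 : List (Option Ltr)), Dec w z1 → Dec w z2 →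
    z1 ++ none :: z2.reverse ∈ L NT.Z := by
  intro w
  induction w with
  | nil =>
    rintro z1 z2 ⟨s, hs, z', rfl, rfl⟩ ⟨s', hs', z'', rfl, rfl⟩
    rw [List.append_nil, List.append_nil]
    exact Z_nil hs (rev_mem hs')
  | cons x w ih =>
    rintro z1 z2 ⟨s, hs, z', rfl, s1, hs1, z1', rfl, h1⟩ ⟨s', hs', z'', rfl, s2, hs2, z2', rfl, h2⟩
    have := Z_rule x hs (ih (s1 ++ z1') (s2 ++ z2') ⟨s1, hs1, z1', rfl, h1⟩
      ⟨s2, hs2, z2', rfl, h2⟩) (rev_mem hs')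
    simpa using this

theorem language_eq : G.language = WP φ := by
  ext z
  constructor
  · intro hz
    exact sound G I (fun r hr => rules_ok r ((mem_rules r).1 hr)) (n := NT.Z) hz
  · rintro ⟨u, v, huv, rfl⟩
    have h : act u [] = act v [] := (ev_eq_iff u v).1 huv
    have h1 := dec u
    have h2 := dec v
    rw [← h] at h2
    have := dec_Z _ _ _ h1 h2
    rw [← List.map_reverse] at this
    exact this

end Pool.Agent.N87.CFU
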