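import Pool.Agent.N87.CFU.Act

set_option autoImplicit false

/-! # The monoid `⟨a, b, c | (a b^i c)^2 = 1, i ≥ 0⟩` and its units -/

namespace Pool.Agent.N87.CFU

open Ltr

abbrev IrrW : Type := {w : List Ltr // Irr w}

noncomputable def gen (l : Ltr) : Function.End IrrW := fun s => ⟨push l s.1, irr_push s.2⟩

/-- the monoid of transformations of irreducible words -/
abbrev Mon : Type := (Submonoid.closure (Set.range gen) : Submonoid (Function.End IrrW))

noncomputable def φ (l : Ltr) : Mon := ⟨gen l, Submonoid.subset_closure ⟨l, rfl⟩⟩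

/-- the value of a word -/
noncomputable def ev (u : List Ltr) : Mon := (u.map φ).prod

theorem ev_nil : ev [] = 1 := rfl

theorem ev_cons (l : Ltr) (u : List Ltr) : ev (l :: u) = φ l * ev u := by
  simp [ev]

theorem ev_append (u v : List Ltr) : ev (u ++ v) = ev u * ev v := by
  simp [ev]

theorem ev_apply (u : List Ltr) (s : IrrW) : ((ev u : Mon) : Function.End IrrW) s =
    ⟨act u s.1, irr_act u s.2⟩ := by
  induction u with
  | nil => rfl
  | cons l u ih =>
    rw [ev_cons]
    show gen l ((ev u : Function.End IrrW) s) = _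
    rw [ih]
    rfl

theorem closure_φ : Submonoid.closure (Set.range φ) = ⊤ := by
  have h : (Submonoid.closure (Set.range φ)).map (Submonoid.subtype _) =
      Submonoid.closure (Set.range gen) := by
    rw [MonoidHom.map_mclosure]
    congr 1
    ext x
    simp [φ]
  rw [eq_top_iff]
  rintro ⟨x, hx⟩ -
  rw [← h] at hx
  obtain ⟨y, hy, hyx⟩ := hx
  have : y = ⟨x, by rw [← hyx]; exact y.2⟩ := Subtype.ext hyx
  rw [this] at hy
  exact hy

theorem ev_surj (m : Mon) : ∃ u, ev u = m := by
  have hm : m ∈ Submonoid.closure (Set.range φ) := by rw [closure_φ]; trivial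
  induction hm using Submonoid.closure_induction with
  | mem x hx =>
    obtain ⟨l, rfl⟩ := hx
    exact ⟨[l], by simp [ev]⟩
  | one => exact ⟨[], rfl⟩
  | mul x y _ _ hx hy =>
    obtain ⟨u, rfl⟩ := hx
    obtain ⟨v, rfl⟩ := hy
    exact ⟨u ++ v, ev_append u v⟩

theorem ev_eq_iff (u v : List Ltr) : ev u = ev v ↔ act u [] = act v [] := by
  constructor
  · intro h
    have := congrArg (fun m : Mon => ((m : Function.End IrrW) ⟨[], Irr.nil⟩).1) h
    simpa only [ev_apply] using this
  · intro h
    apply Subtype.ext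
    funext s
    rw [ev_apply, ev_apply]
    apply Subtype.ext
    simp only
    rw [act_nf u s.2, act_nf v s.2, h]

theorem ev_Cw (i : ℕ) : ev (Cw i) = 1 := by
  rw [← ev_nil, ev_eq_iff, act_Cw i Irr.nil, act_nil]

/-- the normal form -/
noncomputable def nf (m : Mon) : List Ltr := ((m : Function.End IrrW) ⟨[], Irr.nil⟩).1

theorem nf_ev (u : List Ltr) : nf (ev u) = act u [] := by
  unfold nf
  rw [ev_apply]

theorem irr_nf (m : Mon) : Irr (nf m) := ((m : Function.End IrrW) ⟨[], Irr.nil⟩).2

theorem nf_mul (m m' : Mon) : nf (m * m') = act (nf m) (nf m') := by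
  obtain ⟨u, rfl⟩ := ev_surj m
  obtain ⟨v, rfl⟩ := ev_surj m'
  rw [← ev_append, nf_ev, nf_ev, nf_ev, act_append, act_nf u (irr_act v Irr.nil)]

theorem nf_one : nf 1 = [] := rfl

theorem nf_X (i : ℕ) : nf (ev (X i)) = X i := by
  rw [nf_ev, act_X_not, List.append_nil]
  intro t ht
  simp [X] at ht

theorem X_mul_X (i : ℕ) : ev (X i) * ev (X i) = 1 := by
  rw [← ev_append]
  exact ev_Cw i

/-- the normal form of a unit is a product of words `a b^i c` -/
theorem unit_XX : ∀ (n : ℕ) (m : Mon), (nf m).length = n → IsUnit m → ∃ N, XX N (nf m) := by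
  intro n
  induction n using Nat.strong_induction_on with
  | _ n ih =>
    intro m hn hm
    obtain ⟨⟨m, m', h1, h2⟩, rfl⟩ := hm
    have e1 := congrArg nf h1
    have e2 := congrArg nf h2
    rw [nf_mul, nf_one] at e1 e2
    change (nf m).length = n at hn
    show ∃ N, XX N (nf m)
    by_cases hne : nf m = []
    · exact ⟨0, by rw [hne]; exact XX.nil⟩
    · obtain ⟨w, hw⟩ := starts_a _ (nf m) (nf m') rfl (irr_nf m) (irr_nf m') e1 hne
      have hirr : Irr (a :: w) := by rw [← hw]; exact irr_nf m
      rw [hw] at e2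
      obtain ⟨i, t, ht⟩ := starts_X hirr (irr_nf m') e2
      have h3 : nf (ev (X i) * m) = t := by
        rw [nf_mul, nf_X, hw, ht, act_X_X]
      have hlen : (nf (ev (X i) * m)).length < n := by
        rw [h3, ← hn, hw, ht]
        simp only [X, List.cons_append, List.append_assoc, List.length_cons, List.length_append,
          List.length_replicate]
        omega
      have hu : IsUnit (ev (X i) * m) :=
        (Units.isUnit ⟨ev (X i), ev (X i), X_mul_X i, X_mul_X i⟩).mul ⟨⟨m, m', h1, h2⟩, rfl⟩
      obtain ⟨N, hN⟩ := ih _ hlen _ rfl hu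
      rw [h3] at hN
      refine ⟨max N i, ?_⟩
      rw [hw, ht]
      exact XX.cons i t (le_max_right _ _) (hN.mono (le_max_left _ _))

/-- the units with bounded normal forms -/
noncomputable def UN (N : ℕ) : Submonoid Monˣ where
  carrier := {m | XX N (nf m)}
  one_mem' := XX.nil
  mul_mem' := by
    intro x y hx hy
    show XX N (nf ((x * y : Monˣ) : Mon))
    rw [Units.val_mul, nf_mul]
    exact XX.act hx hy

theorem not_fg : ¬ Group.FG Monˣ := by
  intro h
  rw [Group.fg_iff_monoid_fg] at h
  obtain ⟨F, hF⟩ := Monoid.fg_def.1 h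
  have h1 : ∀ m : Monˣ, ∃ N, XX N (nf m) := fun m => unit_XX _ m rfl m.isUnit
  choose N hN using h1
  have h2 : Submonoid.closure (F : Set Monˣ) ≤ UN (F.sup N) := by
    rw [Submonoid.closure_le]
    intro m hm
    exact (hN m).mono (Finset.le_sup hm)
  rw [hF] at h2
  let x : Monˣ := ⟨ev (X (F.sup N + 1)), ev (X (F.sup N + 1)), X_mul_X _, X_mul_X _⟩
  have h3 : XX (F.sup N) (nf (x : Mon)) := h2 (show x ∈ (⊤ : Submonoid Monˣ) from trivial)
  have h4 : nf (x : Mon) = X (F.sup N + 1) ++ [] := by
    rw [List.append_nil]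
    exact nf_X _
  rw [h4] at h3
  have := h3.tail.1
  omega

end Pool.Agent.N87.CFU
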